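import Pool.Agent.Q281.QF.Two

set_option autoImplicit false

/-!
# The semigroup condition for the window `(3n, 6n]` and weights `≤ 3n`, doubled in `(n, 2n]`
-/

namespace Pool.Agent.Q196.QF6

open Pool.Agent.TH416.CI Pool.Agent.Q281.QF
open scoped Pointwise

open Classical in
/-- elements of the window `(3n, 6n]` lying in the semigroup generated by `A` -/
noncomputable def win6 (n : ℕ) (A : Finset ℕ) : Finset ℕ :=
  (Finset.Ioc (3 * n) (6 * n)).filter (fun b => b ∈ AddSubmonoid.closure (A : Set ℕ))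

theorem win6_card_three (n : ℕ) (A B : Finset ℕ) (hBA : B ⊆ A) (hB : B.Nonempty)
    (h : ∀ a ∈ B, n < a ∧ a ≤ 2 * n) : 3 * B.card - 2 ≤ (win6 n A).card := by
  classical
  have hsub : B + B + B ⊆ win6 n A := by
    intro x hx
    simp only [Finset.mem_add] at hx
    obtain ⟨_, ⟨a, ha, b, hb, rfl⟩, c, hc, rfl⟩ := hx
    have h1 := h a ha
    have h2 := h b hb
    have h3 := h c hc
    rw [win6, Finset.mem_filter, Finset.mem_Ioc]
    refine ⟨by omega, ?_⟩
    have hc' : ∀ y ∈ B, y ∈ AddSubmonoid.closure (A : Set ℕ) := fun y hy =>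
      AddSubmonoid.subset_closure (by exact_mod_cast hBA hy)
    exact add_mem (add_mem (hc' _ ha) (hc' _ hb)) (hc' _ hc)
  have h2 := cauchy_davenport_add_of_linearOrder_isCancelAdd hB hB
  have h3 := cauchy_davenport_add_of_linearOrder_isCancelAdd (hB.add hB) hB
  have h6 := Finset.card_le_card hsub
  have h7 := hB.card_pos
  omega

theorem win6_card (n : ℕ) (hn : 0 < n) (S : Finset ℕ)
    (hS : ∀ a ∈ S, 2 ≤ a ∧ a ≤ 3 * n)
    (hL : ∀ g, 0 < g → (S.filter (fun b => g ∣ b)).card +
      ((Finset.Ioc n (2 * n)).filter (fun b => g ∣ b)).card ≤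
        ((Finset.Ioc (3 * n) (6 * n)).filter (fun b => g ∣ b)).card)
    (A : Finset ℕ) (hAS : A ⊆ S) :
    A.card + (A.filter (fun a => n < a ∧ a ≤ 2 * n)).card ≤ (win6 n A).card := by
  classical
  have hA : ∀ a ∈ A, 2 ≤ a ∧ a ≤ 3 * n := fun a ha => hS a (hAS ha)
  set A₁ := A.filter (fun a => n < a ∧ a ≤ 2 * n) with hA₁
  rcases A.eq_empty_or_nonempty with rfl | hne
  · simp [hA₁]
  have hsub₁ : A₁ ⊆ A := Finset.filter_subset _ _
  obtain ⟨M, hMA, hM⟩ : ∃ M ∈ A, ∀ a ∈ A, a ≤ M :=
    ⟨A.max' hne, A.max'_mem hne, fun a ha => A.le_max' a ha⟩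
  have hM1 := hA M hMA
  have hNZ : NeZero M := ⟨by omega⟩
  -- the criterion for belonging to the semigroup
  have hcrit : ∀ x a a' : ℕ, a ∈ A → a' ∈ A → M < x → (x : ZMod M) = (a : ZMod M) + a' →
      x ∈ AddSubmonoid.closure (A : Set ℕ) := by
    intro x a a' ha ha' hx hxm
    have hle : a + a' ≤ x := by
      by_contra hlt
      rw [not_le] at hlt
      have h1 : ((a + a' - x : ℕ) : ZMod M) = 0 := by
        rw [Nat.cast_sub hlt.le, hxm, Nat.cast_add, sub_self]
      rw [ZMod.natCast_eq_zero_iff] at h1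
      have h2 := Nat.le_of_dvd (by omega) h1
      have h3 := hM a ha
      have h4 := hM a' ha'
      omega
    have h1 : ((x - (a + a') : ℕ) : ZMod M) = 0 := by
      rw [Nat.cast_sub hle, hxm, Nat.cast_add, sub_self]
    rw [ZMod.natCast_eq_zero_iff] at h1
    obtain ⟨j, hj⟩ := h1
    have h2 : x = a + a' + j * M := by
      rw [mul_comm] at hj
      omega
    rw [h2]
    have hc : ∀ y ∈ A, y ∈ AddSubmonoid.closure (A : Set ℕ) := fun y hy =>
      AddSubmonoid.subset_closure (by exact_mod_cast hy)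
    refine add_mem (add_mem (hc _ ha) (hc _ ha')) ?_
    rw [← smul_eq_mul]
    exact AddSubmonoid.nsmul_mem _ (hc _ hMA) j
  set B : Finset (ZMod M) := A.image (fun a : ℕ => (a : ZMod M)) with hB
  have hBcard : B.card = A.card := by
    apply Finset.card_image_of_injOn
    intro a ha a' ha' haa
    have h1 := hA a ha
    have h2 := hA a' ha'
    have h3 := hM a ha
    have h4 := hM a' ha'
    simp only at haa
    rw [ZMod.natCast_eq_natCast_iff'] at haa
    rcases h3.lt_or_eq with h3 | h3
    · rcases h4.lt_or_eq with h4 | h4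
      · rwa [Nat.mod_eq_of_lt h3, Nat.mod_eq_of_lt h4] at haa
      · rw [Nat.mod_eq_of_lt h3, h4, Nat.mod_self] at haa
        omega
    · rcases h4.lt_or_eq with h4 | h4
      · rw [Nat.mod_eq_of_lt h4, h3, Nat.mod_self] at haa
        omega
      · omega
  have h0B : (0 : ZMod M) ∈ B := Finset.mem_image.2 ⟨M, hMA, by simp⟩
  -- the window contains at least `|B + B|` elements
  have hwin : (B + B).card ≤ (win6 n A).card := by
    apply Finset.card_le_card_of_injOn (fun s => 6 * n - ((6 * n : ℕ) - s : ZMod M).val)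
    · intro s hs
      have hs' : s ∈ B + B := hs
      rw [Finset.mem_add] at hs'
      obtain ⟨b, hb, b', hb', rfl⟩ := hs'
      obtain ⟨a, ha, rfl⟩ := Finset.mem_image.1 hb
      obtain ⟨a', ha', rfl⟩ := Finset.mem_image.1 hb'
      have hv := ZMod.val_lt (((6 * n : ℕ) : ZMod M) - ((a : ZMod M) + (a' : ZMod M)))
      have h1 := hM a ha
      have h2 := hM a' ha'
      rw [Finset.mem_coe, win6, Finset.mem_filter, Finset.mem_Ioc]
      beta_reduce
      refine ⟨by omega, hcrit _ a a' ha ha' (by omega) ?_⟩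
      rw [Nat.cast_sub (by omega), ZMod.natCast_zmod_val]
      ring
    · intro s hs s' hs' hss
      have hv := ZMod.val_lt (((6 * n : ℕ) : ZMod M) - s)
      have hv' := ZMod.val_lt (((6 * n : ℕ) : ZMod M) - s')
      simp only at hss
      have h1 : (((6 * n : ℕ) : ZMod M) - s).val = (((6 * n : ℕ) : ZMod M) - s').val := by
        omega
      have h2 := ZMod.val_injective M h1
      exact sub_right_injective h2
  by_cases hsm : 2 * (B + B).card < 3 * B.card
  · obtain ⟨g, hg, hgM, hgS⟩ := exists_gen (M := M) (by omega) (B + B)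
      (by simpa using Finset.add_mem_add h0B h0B) (add_closed_of_small B h0B hsm)
    -- everything is a multiple of `g`
    have hgA : ∀ a ∈ A, g ∣ a := by
      intro a ha
      rw [← hgS]
      have := Finset.add_mem_add (Finset.mem_image_of_mem (fun a : ℕ => (a : ZMod M)) ha) h0B
      simpa using this
    have hmulwin : (Finset.Ioc (3 * n) (6 * n)).filter (fun b => g ∣ b) ⊆ win6 n A := by
      intro x hx
      rw [Finset.mem_filter] at hx
      obtain ⟨hx1, hx2⟩ := hx
      rw [win6, Finset.mem_filter]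
      refine ⟨hx1, ?_⟩
      rw [Finset.mem_Ioc] at hx1
      rw [← hgS, Finset.mem_add] at hx2
      obtain ⟨b, hb, b', hb', hbb⟩ := hx2
      obtain ⟨a, ha, rfl⟩ := Finset.mem_image.1 hb
      obtain ⟨a', ha', rfl⟩ := Finset.mem_image.1 hb'
      exact hcrit x a a' ha ha' (by omega) hbb.symm
    have e1 : A.card ≤ (S.filter (fun b => g ∣ b)).card := by
      apply Finset.card_le_card
      intro a ha
      rw [Finset.mem_filter]
      exact ⟨hAS ha, hgA a ha⟩
    have e2 : A₁.card ≤ ((Finset.Ioc n (2 * n)).filter (fun b => g ∣ b)).card := by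
      apply Finset.card_le_card
      intro a ha
      rw [hA₁, Finset.mem_filter] at ha
      rw [Finset.mem_filter, Finset.mem_Ioc]
      exact ⟨by omega, hgA a ha.1⟩
    have e3 := Finset.card_le_card hmulwin
    have e4 := hL g hg
    omega
  · rcases Nat.lt_or_ge (A.card + 1) (2 * A₁.card) with hk | hk
    · have hne₁ : A₁.Nonempty := by
        rw [← Finset.card_pos]
        omega
      have h5 := win6_card_three n A A₁ hsub₁ hne₁ (fun a ha => (Finset.mem_filter.1 ha).2)
      have hpos := hne₁.card_pos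
      omega
    · omega

/-- The complete intersection theorem for these weights and degrees. -/
theorem master (n c : ℕ) (hn : 0 < n) (S E : Finset ℕ)
    (hS : ∀ a ∈ S, 2 ≤ a ∧ a ≤ 3 * n)
    (hTS : Finset.Ioc n (2 * n) ⊆ S)
    (hL : ∀ g, 0 < g → (S.filter (fun b => g ∣ b)).card +
      ((Finset.Ioc n (2 * n)).filter (fun b => g ∣ b)).card ≤
        ((Finset.Ioc (3 * n) (6 * n)).filter (fun b => g ∣ b)).card)
    (hE : ∀ b ∈ E, 0 < b ∧ b ≤ 3 * n)
    (hcard : E.card + 3 * n = c + (S.card + n)) :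
    ∃ P : Polynomial ℤ, (∀ k, 0 ≤ P.coeff k) ∧
      (∏ b ∈ E, ((1 : Polynomial ℤ) - Polynomial.X ^ b)) *
        ∏ b ∈ Finset.Ioc (3 * n) (6 * n), ((1 : Polynomial ℤ) - Polynomial.X ^ b) =
        P * ((1 - Polynomial.X) ^ c * ((∏ a ∈ S, ((1 : Polynomial ℤ) - Polynomial.X ^ a)) *
          ∏ a ∈ Finset.Ioc n (2 * n), ((1 : Polynomial ℤ) - Polynomial.X ^ a))) := by
  classical
  have hdis : Disjoint E (Finset.Ioc (3 * n) (6 * n)) := by
    rw [Finset.disjoint_left]
    intro x hx hx'
    have h1 := hE x hx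
    rw [Finset.mem_Ioc] at hx'
    omega
  obtain ⟨P, hP, hPe⟩ := ci_two S (Finset.Ioc n (2 * n)) (E ∪ Finset.Ioc (3 * n) (6 * n)) c
    (fun a ha => by have := hS a ha; omega)
    (fun a ha => by rw [Finset.mem_Ioc] at ha; omega)
    (by
      intro b hb
      rcases Finset.mem_union.1 hb with hb | hb
      · exact (hE b hb).1
      · rw [Finset.mem_Ioc] at hb
        omega)
    (by
      rw [Finset.card_union_of_disjoint hdis, Nat.card_Ioc, Nat.card_Ioc]
      omega)
    (by
      intro A hA A' hA'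
      have hU : A ∪ A' ⊆ S := Finset.union_subset hA (hA'.trans hTS)
      have h1 := win6_card n hn S hS hL (A ∪ A') hU
      have h2 : A.card + A'.card ≤
          (A ∪ A').card + ((A ∪ A').filter (fun a => n < a ∧ a ≤ 2 * n)).card := by
        rw [← Finset.card_union_add_card_inter]
        refine Nat.add_le_add_left (Finset.card_le_card ?_) _
        intro x hx
        rw [Finset.mem_inter] at hx
        have h5 := Finset.mem_Ioc.1 (hA' hx.2)
        rw [Finset.mem_filter]
        exact ⟨Finset.mem_union_left _ hx.1, by omega, by omega⟩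
      refine h2.trans (h1.trans (Finset.card_le_card ?_))
      intro x hx
      rw [win6, Finset.mem_filter] at hx
      rw [Finset.mem_filter]
      exact ⟨Finset.mem_union_right _ hx.1, hx.2⟩)
  refine ⟨P, hP, ?_⟩
  rw [← hPe, Finset.prod_union hdis]

end Pool.Agent.Q196.QF6
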