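import Pool.Agent.Q196.QF6.Landau

set_option autoImplicit false

/-!
# The five families of q-factorial ratios: numerators and denominators
-/

namespace Pool.Agent.Q196.QF6

open Polynomial

/-- `[m]! = (1-q)(1-q^2)⋯(1-q^m)`. -/
noncomputable def qfac (m : ℕ) : ℤ[X] := ∏ i ∈ Finset.range m, (1 - X ^ (i + 1))

/-- The numerator of `P_{i,n}`: the prefactor times `[6n]! [n]!`. -/
noncomputable def num (i n : ℕ) : ℤ[X] :=
  (match i with
    | 1 => 1 - X
    | 2 => 1 - X ^ 3
    | 3 => (1 - X) * (1 - X ^ 3)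
    | 4 => (1 - X ^ 3) * (1 - X ^ 5) * (1 - X ^ 7)
    | 5 => (1 - X ^ 3) ^ 2 * (1 - X ^ 5) * (1 - X ^ 7)
    | _ => 1) * (qfac (6 * n) * qfac n)

/-- The denominator of `P_{i,n}`: the prefactor times `[3n]! [2n]!^2`. -/
noncomputable def den (i n : ℕ) : ℤ[X] :=
  (match i with
    | 1 => 1 - X ^ (2 * n + 1)
    | 2 => 1 - X ^ (2 * n + 3)
    | 3 => (1 - X ^ (2 * n + 1)) * (1 - X ^ (2 * n + 3))
    | 4 => (1 - X ^ (2 * n + 3)) * (1 - X ^ (2 * n + 5)) * (1 - X ^ (2 * n + 7))
    | 5 => (1 - X ^ (2 * n + 1)) * (1 - X ^ (2 * n + 3)) * (1 - X ^ (2 * n + 5)) *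
        (1 - X ^ (2 * n + 7))
    | _ => 1) * (qfac (3 * n) * qfac (2 * n) ^ 2)

/-- `P_{i,n}` is a polynomial with non-negative integer coefficients. -/
def NonnegPoly (i n : ℕ) : Prop :=
  ∃ P : ℤ[X], (∀ k, 0 ≤ P.coeff k) ∧ num i n = P * den i n

theorem qfac_eq (m : ℕ) : qfac m = ∏ b ∈ Finset.Ioc 0 m, (1 - X ^ b) := by
  induction m with
  | zero => simp [qfac]
  | succ m ih =>
    rw [qfac, Finset.prod_range_succ, ← qfac, ih, Finset.prod_Ioc_succ_top (Nat.zero_le m)]

theorem qfac_mul (m k : ℕ) (h : m ≤ k) :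
    qfac k = qfac m * ∏ b ∈ Finset.Ioc m k, (1 - X ^ b) := by
  rw [qfac_eq, qfac_eq, Finset.prod_Ioc_consecutive _ (Nat.zero_le _) h]

theorem qfac_list (m : ℕ) :
    qfac m = (((List.range m).map (fun i => i + 1)).map (fun b => (1 : ℤ[X]) - X ^ b)).prod := by
  rw [qfac, List.map_map, ← List.toFinset_range, List.prod_toFinset _ List.nodup_range]
  rfl

/-- exponents of the factors of the numerator -/
def numL (i n : ℕ) : List ℕ :=
  (match i with
    | 1 => [1]
    | 2 => [3]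
    | 3 => [1, 3]
    | 4 => [3, 5, 7]
    | 5 => [3, 3, 5, 7]
    | _ => []) ++ (List.range (6 * n)).map (fun i => i + 1) ++ (List.range n).map (fun i => i + 1)

/-- exponents of the factors of the denominator -/
def denL (i n : ℕ) : List ℕ :=
  (match i with
    | 1 => [2 * n + 1]
    | 2 => [2 * n + 3]
    | 3 => [2 * n + 1, 2 * n + 3]
    | 4 => [2 * n + 3, 2 * n + 5, 2 * n + 7]
    | 5 => [2 * n + 1, 2 * n + 3, 2 * n + 5, 2 * n + 7]
    | _ => []) ++ (List.range (3 * n)).map (fun i => i + 1) ++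
      (List.range (2 * n)).map (fun i => i + 1) ++ (List.range (2 * n)).map (fun i => i + 1)

theorem numL_prod (i n : ℕ) :
    ((numL i n).map (fun b => (1 : ℤ[X]) - X ^ b)).prod = num i n := by
  unfold numL num
  rw [List.map_append, List.map_append, List.prod_append, List.prod_append,
    ← qfac_list, ← qfac_list, mul_assoc]
  refine congrArg (fun p => p * (qfac (6 * n) * qfac n)) ?_
  rcases i with _ | _ | _ | _ | _ | _ | i
  · simp
  · simp
  · simp
  · simp
  · simp [mul_assoc]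
  · simp [mul_assoc, pow_two]
  · simp

theorem denL_prod (i n : ℕ) :
    ((denL i n).map (fun b => (1 : ℤ[X]) - X ^ b)).prod = den i n := by
  unfold denL den
  rw [List.map_append, List.map_append, List.map_append, List.prod_append,
    List.prod_append, List.prod_append, ← qfac_list, ← qfac_list, mul_assoc, mul_assoc, ← sq]
  refine congrArg (fun p => p * (qfac (3 * n) * qfac (2 * n) ^ 2)) ?_
  rcases i with _ | _ | _ | _ | _ | _ | i
  · simp
  · simp
  · simp
  · simp
  · simp [mul_assoc]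
  · simp [mul_assoc, pow_two]
  · simp

theorem small (i n : ℕ) (l : List ℤ) (hl : ∀ a ∈ l, 0 ≤ a)
    (h : Pool.Agent.Q281.QF.mulSs (numL i n) [1] = Pool.Agent.Q281.QF.mulSs (denL i n) l) :
    NonnegPoly i n := by
  refine ⟨Pool.Agent.Q281.QF.toPoly l, Pool.Agent.Q281.QF.toPoly_coeff_nonneg _ hl, ?_⟩
  have h1 := congrArg Pool.Agent.Q281.QF.toPoly h
  rw [Pool.Agent.Q281.QF.toPoly_mulSs, Pool.Agent.Q281.QF.toPoly_mulSs, numL_prod,
    denL_prod] at h1
  rw [← h1]
  simp [Pool.Agent.Q281.QF.toPoly]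

end Pool.Agent.Q196.QF6
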