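import Pool.Agent.Q196.QF6.Comb

set_option autoImplicit false

/-!
# The numbers of multiples of `g` among weights and degrees
-/

namespace Pool.Agent.Q196.QF6

open Pool.Agent.Q281.QF

theorem basic (n g : ℕ) : 2 * (2 * n / g) + 3 * n / g ≤ 6 * n / g + n / g := by
  have h' : ∀ a b : ℕ, 0 < a → a * b = 6 → b * n / g = (6 * n / g) / a := by
    intro a b ha hab
    rw [Nat.div_div_eq_div_mul, ← hab, mul_assoc, mul_comm g a, Nat.mul_div_mul_left _ _ ha]
  have h1 := h' 3 2 (by norm_num) rfl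
  have h2 := h' 2 3 (by norm_num) rfl
  have h3 := h' 6 1 (by norm_num) rfl
  rw [one_mul] at h3
  rw [h1, h2, h3]
  omega

theorem strict (n g e : ℕ) (he : e % 2 = 1) (h3 : 3 * e ≤ g) (hd : g ∣ 2 * n + e) :
    2 * (2 * n / g) + 1 + 3 * n / g ≤ 6 * n / g + n / g := by
  obtain ⟨m, hm⟩ := hd
  have hg2 : g % 2 = 1 := by
    rcases Nat.even_or_odd' g with ⟨c, rfl | rfl⟩
    · exfalso
      have : 2 * c * m = 2 * (c * m) := by ring
      omega
    · omega
  have hm2 : m % 2 = 1 := by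
    rcases Nat.even_or_odd' m with ⟨c, rfl | rfl⟩
    · exfalso
      have : g * (2 * c) = 2 * (g * c) := by ring
      omega
    · omega
  obtain ⟨j, rfl⟩ : ∃ j, m = 2 * j + 1 := ⟨m / 2, by omega⟩
  have e0 : g * (2 * j + 1) = 2 * (j * g) + g := by ring
  have h1 : n / g = j := by
    apply Nat.div_eq_of_lt_le
    · omega
    · have : (j + 1) * g = j * g + g := by ring
      omega
  have h2 : 2 * n / g = 2 * j := by
    apply Nat.div_eq_of_lt_le
    · have : 2 * j * g = 2 * (j * g) := by ring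
      omega
    · have : (2 * j + 1) * g = 2 * (j * g) + g := by ring
      omega
  have h4 : 3 * n / g = 3 * j + 1 := by
    apply Nat.div_eq_of_lt_le
    · have : (3 * j + 1) * g = 3 * (j * g) + g := by ring
      omega
    · have : (3 * j + 1 + 1) * g = 3 * (j * g) + 2 * g := by ring
      omega
  have h6 : 6 * n / g = 6 * j + 2 := by
    apply Nat.div_eq_of_lt_le
    · have : (6 * j + 2) * g = 6 * (j * g) + 2 * g := by ring
      omega
    · have : (6 * j + 2 + 1) * g = 6 * (j * g) + 3 * g := by ring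
      omega
  omega

theorem cnt_insert (S : Finset ℕ) (a g : ℕ) (h : a ∉ S) :
    ((insert a S).filter (fun b => g ∣ b)).card =
      (S.filter (fun b => g ∣ b)).card + (if g ∣ a then 1 else 0) := by
  rw [Finset.filter_insert]
  split_ifs with h1
  · rw [Finset.card_insert_of_notMem (fun h2 => h (Finset.mem_filter.1 h2).1)]
  · rfl

theorem cnt_erase (S : Finset ℕ) (a g : ℕ) (h : a ∈ S) :
    ((S.erase a).filter (fun b => g ∣ b)).card + (if g ∣ a then 1 else 0) =
      (S.filter (fun b => g ∣ b)).card := by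
  have h1 := cnt_insert (S.erase a) a g (by simp)
  rw [Finset.insert_erase h] at h1
  exact h1.symm

/-- weights for the first family -/
def S1 (n : ℕ) : Finset ℕ := insert (2 * n + 1) (Finset.Ioc 1 (2 * n))

/-- weights for the second family -/
def S2 (n : ℕ) : Finset ℕ := insert (2 * n + 3) ((Finset.Ioc 1 (2 * n)).erase 3)

/-- weights for the third family -/
def S3 (n : ℕ) : Finset ℕ := insert (2 * n + 1) (S2 n)

/-- weights for the fourth family -/
def S4 (n : ℕ) : Finset ℕ :=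
  insert (2 * n + 7) (insert (2 * n + 5) (insert (2 * n + 3)
    ((((Finset.Ioc 1 (2 * n)).erase 3).erase 5).erase 7)))

/-- weights for the fifth family -/
def S5 (n : ℕ) : Finset ℕ := insert (2 * n + 1) (S4 n)

theorem mem_S1 (n a : ℕ) : a ∈ S1 n ↔ a = 2 * n + 1 ∨ (1 < a ∧ a ≤ 2 * n) := by
  simp [S1]

theorem mem_S2 (n a : ℕ) : a ∈ S2 n ↔ a = 2 * n + 3 ∨ (a ≠ 3 ∧ 1 < a ∧ a ≤ 2 * n) := by
  simp [S2]

theorem mem_S3 (n a : ℕ) : a ∈ S3 n ↔ a = 2 * n + 1 ∨ a = 2 * n + 3 ∨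
    (a ≠ 3 ∧ 1 < a ∧ a ≤ 2 * n) := by
  rw [S3, Finset.mem_insert, mem_S2]

theorem mem_S4 (n a : ℕ) : a ∈ S4 n ↔ a = 2 * n + 7 ∨ a = 2 * n + 5 ∨ a = 2 * n + 3 ∨
    (a ≠ 7 ∧ a ≠ 5 ∧ a ≠ 3 ∧ 1 < a ∧ a ≤ 2 * n) := by
  simp [S4]

theorem mem_S5 (n a : ℕ) : a ∈ S5 n ↔ a = 2 * n + 1 ∨ a = 2 * n + 7 ∨ a = 2 * n + 5 ∨
    a = 2 * n + 3 ∨ (a ≠ 7 ∧ a ≠ 5 ∧ a ≠ 3 ∧ 1 < a ∧ a ≤ 2 * n) := by
  rw [S5, Finset.mem_insert, mem_S4]

theorem cnt_S1 (n g : ℕ) (hn : 0 < n) : ((S1 n).filter (fun b => g ∣ b)).card =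
    (2 * n / g - 1 / g) + (if g ∣ 2 * n + 1 then 1 else 0) := by
  rw [S1, cnt_insert _ _ _ (by rw [Finset.mem_Ioc]; omega), hcount _ _ _ (by omega)]

theorem cnt_S2 (n g : ℕ) (hn : 3 ≤ n) : ((S2 n).filter (fun b => g ∣ b)).card +
    (if g ∣ 3 then 1 else 0) =
    (2 * n / g - 1 / g) + (if g ∣ 2 * n + 3 then 1 else 0) := by
  rw [S2, cnt_insert _ _ _ (by rw [Finset.mem_erase, Finset.mem_Ioc]; omega)]
  have h1 := cnt_erase (Finset.Ioc 1 (2 * n)) 3 g (by rw [Finset.mem_Ioc]; omega)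
  rw [hcount _ _ _ (by omega)] at h1
  omega

theorem cnt_S3 (n g : ℕ) (hn : 3 ≤ n) : ((S3 n).filter (fun b => g ∣ b)).card +
    (if g ∣ 3 then 1 else 0) =
    (2 * n / g - 1 / g) + (if g ∣ 2 * n + 3 then 1 else 0) + (if g ∣ 2 * n + 1 then 1 else 0) := by
  have h1 := cnt_S2 n g hn
  rw [S3, cnt_insert _ _ _ (by rw [mem_S2]; omega)]
  omega

theorem cnt_S4 (n g : ℕ) (hn : 7 ≤ n) : ((S4 n).filter (fun b => g ∣ b)).card +
    (if g ∣ 3 then 1 else 0) + (if g ∣ 5 then 1 else 0) + (if g ∣ 7 then 1 else 0) =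
    (2 * n / g - 1 / g) + (if g ∣ 2 * n + 3 then 1 else 0) + (if g ∣ 2 * n + 5 then 1 else 0) +
      (if g ∣ 2 * n + 7 then 1 else 0) := by
  rw [S4, cnt_insert _ _ _ (by simp), cnt_insert _ _ _ (by simp),
    cnt_insert _ _ _ (by simp)]
  have h1 := cnt_erase (Finset.Ioc 1 (2 * n)) 3 g (by rw [Finset.mem_Ioc]; omega)
  rw [hcount _ _ _ (by omega)] at h1
  have h2 := cnt_erase ((Finset.Ioc 1 (2 * n)).erase 3) 5 g
    (by rw [Finset.mem_erase, Finset.mem_Ioc]; omega)
  have h3 := cnt_erase (((Finset.Ioc 1 (2 * n)).erase 3).erase 5) 7 g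
    (by rw [Finset.mem_erase, Finset.mem_erase, Finset.mem_Ioc]; omega)
  omega

theorem cnt_S5 (n g : ℕ) (hn : 7 ≤ n) : ((S5 n).filter (fun b => g ∣ b)).card +
    (if g ∣ 3 then 1 else 0) + (if g ∣ 5 then 1 else 0) + (if g ∣ 7 then 1 else 0) =
    (2 * n / g - 1 / g) + (if g ∣ 2 * n + 3 then 1 else 0) + (if g ∣ 2 * n + 5 then 1 else 0) +
      (if g ∣ 2 * n + 7 then 1 else 0) + (if g ∣ 2 * n + 1 then 1 else 0) := by
  have h1 := cnt_S4 n g hn
  rw [S5, cnt_insert _ _ _ (by rw [mem_S4]; omega)]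
  omega

/-- an indicator as a disjunction -/
theorem ind (p : Prop) [Decidable p] : (p ∧ (if p then 1 else 0) = 1) ∨ (¬ p ∧ (if p then 1 else 0) = 0) := by
  by_cases h : p <;> simp [h]

theorem not_both (g a b : ℕ) (hab : a < b) (h : b < a + g) (h1 : g ∣ a) (h2 : g ∣ b) : False := by
  have h3 := (Nat.dvd_sub h2 h1)
  have h4 := Nat.le_of_dvd (by omega) h3
  omega

theorem hL1 (n : ℕ) (hn : 0 < n) (g : ℕ) (hg : 0 < g) :
    ((S1 n).filter (fun b => g ∣ b)).card +
      ((Finset.Ioc n (2 * n)).filter (fun b => g ∣ b)).card ≤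
        ((Finset.Ioc (3 * n) (6 * n)).filter (fun b => g ∣ b)).card := by
  rw [cnt_S1 n g hn, hcount _ _ _ (by omega), hcount _ _ _ (by omega)]
  have i1 := ind (g ∣ 2 * n + 1)
  generalize (if g ∣ 2 * n + 1 then 1 else 0) = c1 at *
  have b := basic n g
  have m1 : n / g ≤ 2 * n / g := Nat.div_le_div_right (by omega)
  have m2 : 3 * n / g ≤ 6 * n / g := Nat.div_le_div_right (by omega)
  rcases Nat.lt_or_ge g 3 with h | h
  · interval_cases g <;> omega
  · have s1 := strict n g 1 rfl (by omega)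
    generalize 2 * n / g = q2 at *
    generalize 3 * n / g = q3 at *
    generalize 6 * n / g = q6 at *
    generalize n / g = q1 at *
    generalize 1 / g = q0 at *
    rcases i1 with ⟨h1, h2⟩ | ⟨h1, h2⟩
    · have := s1 h1
      omega
    · omega

theorem hL3 (n : ℕ) (hn : 3 ≤ n) (g : ℕ) (hg : 0 < g) :
    ((S3 n).filter (fun b => g ∣ b)).card +
      ((Finset.Ioc n (2 * n)).filter (fun b => g ∣ b)).card ≤
        ((Finset.Ioc (3 * n) (6 * n)).filter (fun b => g ∣ b)).card := by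
  have h0 := cnt_S3 n g hn
  rw [hcount _ _ _ (by omega), hcount _ _ _ (by omega)]
  have i0 := ind (g ∣ 3)
  have i1 := ind (g ∣ 2 * n + 1)
  have i3 := ind (g ∣ 2 * n + 3)
  generalize (if g ∣ 3 then 1 else 0) = c0 at *
  generalize (if g ∣ 2 * n + 1 then 1 else 0) = c1 at *
  generalize (if g ∣ 2 * n + 3 then 1 else 0) = c3 at *
  have b := basic n g
  have m1 : n / g ≤ 2 * n / g := Nat.div_le_div_right (by omega)
  have m2 : 3 * n / g ≤ 6 * n / g := Nat.div_le_div_right (by omega)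
  rcases Nat.lt_or_ge g 9 with h | h
  · interval_cases g <;> omega
  · have s1 := strict n g 1 rfl (by omega)
    have s3 := strict n g 3 rfl (by omega)
    generalize 2 * n / g = q2 at *
    generalize 3 * n / g = q3 at *
    generalize 6 * n / g = q6 at *
    generalize n / g = q1 at *
    generalize 1 / g = q0 at *
    rcases i1 with ⟨h1, h2⟩ | ⟨h1, h2⟩
    · have := s1 h1
      rcases i3 with ⟨h3, h4⟩ | ⟨h3, h4⟩
      · exact (not_both g _ _ (by omega) (by omega) h1 h3).elim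
      · omega
    · rcases i3 with ⟨h3, h4⟩ | ⟨h3, h4⟩
      · have := s3 h3
        omega
      · omega

theorem hL2 (n : ℕ) (hn : 3 ≤ n) (g : ℕ) (hg : 0 < g) :
    ((S2 n).filter (fun b => g ∣ b)).card +
      ((Finset.Ioc n (2 * n)).filter (fun b => g ∣ b)).card ≤
        ((Finset.Ioc (3 * n) (6 * n)).filter (fun b => g ∣ b)).card := by
  refine le_trans (Nat.add_le_add_right (Finset.card_le_card ?_) _) (hL3 n hn g hg)
  exact Finset.filter_subset_filter _ (Finset.subset_insert _ _)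

theorem hL5 (n : ℕ) (hn : 7 ≤ n) (h9 : n % 9 ≠ 1) (g : ℕ) (hg : 0 < g) :
    ((S5 n).filter (fun b => g ∣ b)).card +
      ((Finset.Ioc n (2 * n)).filter (fun b => g ∣ b)).card ≤
        ((Finset.Ioc (3 * n) (6 * n)).filter (fun b => g ∣ b)).card := by
  have h0 := cnt_S5 n g hn
  rw [hcount _ _ _ (by omega), hcount _ _ _ (by omega)]
  have j3 := ind (g ∣ 3)
  have j5 := ind (g ∣ 5)
  have j7 := ind (g ∣ 7)
  have i1 := ind (g ∣ 2 * n + 1)
  have i3 := ind (g ∣ 2 * n + 3)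
  have i5 := ind (g ∣ 2 * n + 5)
  have i7 := ind (g ∣ 2 * n + 7)
  generalize (if g ∣ 3 then 1 else 0) = d3 at *
  generalize (if g ∣ 5 then 1 else 0) = d5 at *
  generalize (if g ∣ 7 then 1 else 0) = d7 at *
  generalize (if g ∣ 2 * n + 1 then 1 else 0) = c1 at *
  generalize (if g ∣ 2 * n + 3 then 1 else 0) = c3 at *
  generalize (if g ∣ 2 * n + 5 then 1 else 0) = c5 at *
  generalize (if g ∣ 2 * n + 7 then 1 else 0) = c7 at *
  have b := basic n g
  have m1 : n / g ≤ 2 * n / g := Nat.div_le_div_right (by omega)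
  have m2 : 3 * n / g ≤ 6 * n / g := Nat.div_le_div_right (by omega)
  rcases Nat.lt_or_ge g 21 with h | h
  · interval_cases g <;> omega
  · have s1 := strict n g 1 rfl (by omega)
    have s3 := strict n g 3 rfl (by omega)
    have s5 := strict n g 5 rfl (by omega)
    have s7 := strict n g 7 rfl (by omega)
    generalize 2 * n / g = q2 at *
    generalize 3 * n / g = q3 at *
    generalize 6 * n / g = q6 at *
    generalize n / g = q1 at *
    generalize 1 / g = q0 at *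
    rcases i1 with ⟨h1, h2⟩ | ⟨h1, h2⟩
    · have := s1 h1
      rcases i3 with ⟨h3, h4⟩ | ⟨h3, h4⟩
      · exact (not_both g _ _ (by omega) (by omega) h1 h3).elim
      rcases i5 with ⟨h5, h6⟩ | ⟨h5, h6⟩
      · exact (not_both g _ _ (by omega) (by omega) h1 h5).elim
      rcases i7 with ⟨h7, h8⟩ | ⟨h7, h8⟩
      · exact (not_both g _ _ (by omega) (by omega) h1 h7).elim
      omega
    · rcases i3 with ⟨h3, h4⟩ | ⟨h3, h4⟩
      · have := s3 h3
        rcases i5 with ⟨h5, h6⟩ | ⟨h5, h6⟩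
        · exact (not_both g _ _ (by omega) (by omega) h3 h5).elim
        rcases i7 with ⟨h7, h8⟩ | ⟨h7, h8⟩
        · exact (not_both g _ _ (by omega) (by omega) h3 h7).elim
        omega
      · rcases i5 with ⟨h5, h6⟩ | ⟨h5, h6⟩
        · have := s5 h5
          rcases i7 with ⟨h7, h8⟩ | ⟨h7, h8⟩
          · exact (not_both g _ _ (by omega) (by omega) h5 h7).elim
          omega
        · rcases i7 with ⟨h7, h8⟩ | ⟨h7, h8⟩
          · have := s7 h7
            omega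
          · omega

theorem hL4 (n : ℕ) (hn : 7 ≤ n) (h9 : n % 9 ≠ 1) (g : ℕ) (hg : 0 < g) :
    ((S4 n).filter (fun b => g ∣ b)).card +
      ((Finset.Ioc n (2 * n)).filter (fun b => g ∣ b)).card ≤
        ((Finset.Ioc (3 * n) (6 * n)).filter (fun b => g ∣ b)).card := by
  refine le_trans (Nat.add_le_add_right (Finset.card_le_card ?_) _) (hL5 n hn h9 g hg)
  exact Finset.filter_subset_filter _ (Finset.subset_insert _ _)

end Pool.Agent.Q196.QF6
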