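import Pool.Agent.Q196.QF6.Defs

set_option autoImplicit false

/-!
# `P_{4,n}`, `P_{5,n}` for `n ≡ 1 mod 9`
-/

namespace Pool.Agent.Q196.QF6

open Polynomial

/-- the number of multiples of nine in a list -/
theorem count_range (m : ℕ) :
    ((List.range m).map (fun i => i + 1)).countP (fun b => 9 ∣ b) = m / 9 := by
  induction m with
  | zero => simp
  | succ m ih =>
    rw [List.range_succ, List.map_append, List.countP_append, ih]
    simp only [List.map_cons, List.map_nil, List.countP_singleton, decide_eq_true_eq]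
    split_ifs with h <;> omega

theorem count_lt (i n : ℕ) (hi : i = 4 ∨ i = 5) (h9 : n % 9 = 1) :
    (numL i n).countP (fun b => 9 ∣ b) < (denL i n).countP (fun b => 9 ∣ b) := by
  rcases hi with rfl | rfl
  · rw [numL, denL, List.countP_append, List.countP_append, List.countP_append,
      List.countP_append, List.countP_append, count_range, count_range, count_range, count_range]
    have e1 : List.countP (fun b => decide (9 ∣ b)) [3, 5, 7] = 0 := by decide
    have e2 : 1 ≤ List.countP (fun b => decide (9 ∣ b)) [2 * n + 3, 2 * n + 5, 2 * n + 7] := by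
      rw [List.one_le_countP_iff]
      exact ⟨2 * n + 7, by simp, by simp; omega⟩
    omega
  · rw [numL, denL, List.countP_append, List.countP_append, List.countP_append,
      List.countP_append, List.countP_append, count_range, count_range, count_range, count_range]
    have e1 : List.countP (fun b => decide (9 ∣ b)) [3, 3, 5, 7] = 0 := by decide
    have e2 : 1 ≤ List.countP (fun b => decide (9 ∣ b))
        [2 * n + 1, 2 * n + 3, 2 * n + 5, 2 * n + 7] := by
      rw [List.one_le_countP_iff]
      exact ⟨2 * n + 7, by simp, by simp; omega⟩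
    omega

theorem pos_numL (i n : ℕ) : ∀ b ∈ numL i n, 0 < b := by
  intro b hb
  unfold numL at hb
  rw [List.mem_append, List.mem_append, List.mem_map, List.mem_map] at hb
  rcases hb with (hb | ⟨a, _, rfl⟩) | ⟨a, _, rfl⟩
  · rcases i with _ | _ | _ | _ | _ | _ | i <;> simp at hb <;> omega
  · omega
  · omega

theorem pos_denL (i n : ℕ) : ∀ b ∈ denL i n, 0 < b := by
  intro b hb
  unfold denL at hb
  rw [List.mem_append, List.mem_append, List.mem_append, List.mem_map, List.mem_map] at hb
  rcases hb with ((hb | ⟨a, _, rfl⟩) | ⟨a, _, rfl⟩) | ⟨a, _, rfl⟩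
  · rcases i with _ | _ | _ | _ | _ | _ | i <;> simp at hb <;> omega
  · omega
  · omega
  · omega

theorem mult_one (z : ℂ) (hz : IsPrimitiveRoot z 9) (b : ℕ) (hb : 0 < b) :
    ((1 : ℂ[X]) - X ^ b) ≠ 0 ∧
      rootMultiplicity z ((1 : ℂ[X]) - X ^ b) = if 9 ∣ b then 1 else 0 := by
  have h0 : ((1 : ℂ[X]) - X ^ b) ≠ 0 := by
    intro h1
    have h2 := congrArg (fun p => p.coeff 0) h1
    simp [hb.ne] at h2
  refine ⟨h0, ?_⟩
  split_ifs with h
  · have h1 : z ^ b = 1 := by
      obtain ⟨c, rfl⟩ := h
      rw [pow_mul, hz.pow_eq_one, one_pow]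
    have hroot : IsRoot ((1 : ℂ[X]) - X ^ b) z := by
      simp [IsRoot, h1]
    have h2 : 0 < rootMultiplicity z ((1 : ℂ[X]) - X ^ b) :=
      (rootMultiplicity_pos h0).2 hroot
    have h3 : ¬ 1 < rootMultiplicity z ((1 : ℂ[X]) - X ^ b) := by
      rw [one_lt_rootMultiplicity_iff_isRoot h0]
      rintro ⟨_, h4⟩
      have hz0 : z ≠ 0 := hz.ne_zero (by norm_num)
      simp [IsRoot, derivative_X_pow, hb.ne', hz0] at h4
    omega
  · apply rootMultiplicity_eq_zero
    intro h1
    simp only [IsRoot, eval_sub, eval_one, eval_pow, eval_X] at h1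
    have h2 : z ^ b = 1 := (sub_eq_zero.1 h1).symm
    exact h (hz.dvd_of_pow_eq_one b h2)

theorem mult_prod (z : ℂ) (hz : IsPrimitiveRoot z 9) (L : List ℕ) (hL : ∀ b ∈ L, 0 < b) :
    (L.map (fun b => (1 : ℂ[X]) - X ^ b)).prod ≠ 0 ∧
      rootMultiplicity z (L.map (fun b => (1 : ℂ[X]) - X ^ b)).prod =
        L.countP (fun b => 9 ∣ b) := by
  induction L with
  | nil => simp
  | cons a L ih =>
    obtain ⟨h1, h2⟩ := ih (fun b hb => hL b (List.mem_cons_of_mem _ hb))
    obtain ⟨h3, h4⟩ := mult_one z hz a (hL a (by simp))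
    rw [List.map_cons, List.prod_cons]
    refine ⟨mul_ne_zero h3 h1, ?_⟩
    rw [rootMultiplicity_mul (mul_ne_zero h3 h1), h2, h4, List.countP_cons]
    simp only [decide_eq_true_eq]
    rw [add_comm]

theorem map_num (i n : ℕ) : (num i n).map (Int.castRingHom ℂ) =
    ((numL i n).map (fun b => (1 : ℂ[X]) - X ^ b)).prod := by
  rw [← numL_prod, Polynomial.map_list_prod, List.map_map]
  congr 1
  apply List.map_congr_left
  intro b _
  simp

theorem map_den (i n : ℕ) : (den i n).map (Int.castRingHom ℂ) =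
    ((denL i n).map (fun b => (1 : ℂ[X]) - X ^ b)).prod := by
  rw [← denL_prod, Polynomial.map_list_prod, List.map_map]
  congr 1
  apply List.map_congr_left
  intro b _
  simp

theorem not_poly (i n : ℕ) (hi : i = 4 ∨ i = 5) (h9 : n % 9 = 1) :
    ¬ ∃ P : ℂ[X], (num i n).map (Int.castRingHom ℂ) = P * (den i n).map (Int.castRingHom ℂ) := by
  rintro ⟨P, hP⟩
  have hz : IsPrimitiveRoot (Complex.exp (2 * Real.pi * Complex.I / (9 : ℕ))) 9 :=
    Complex.isPrimitiveRoot_exp 9 (by norm_num)
  set z := Complex.exp (2 * Real.pi * Complex.I / (9 : ℕ)) with hzdef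
  obtain ⟨h1, h2⟩ := mult_prod z hz (numL i n) (pos_numL i n)
  obtain ⟨h3, h4⟩ := mult_prod z hz (denL i n) (pos_denL i n)
  rw [← map_num] at h1 h2
  rw [← map_den] at h3 h4
  have h5 := count_lt i n hi h9
  rw [hP] at h1 h2
  rw [rootMultiplicity_mul h1, h4] at h2
  omega

/-- non-negative coefficients are preserved by products -/
theorem nonneg_mul (p q : PowerSeries ℤ) (hp : ∀ k, 0 ≤ PowerSeries.coeff k p)
    (hq : ∀ k, 0 ≤ PowerSeries.coeff k q) (k : ℕ) : 0 ≤ PowerSeries.coeff k (p * q) := by
  rw [PowerSeries.coeff_mul]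
  exact Finset.sum_nonneg fun x _ => mul_nonneg (hp _) (hq _)

/-- `∏ (1 + q + ⋯ + q^(b-1))` -/
noncomputable def geom (L : List ℕ) : ℤ[X] :=
  (L.map (fun b => ∑ j ∈ Finset.range b, (X : ℤ[X]) ^ j)).prod

theorem geom_nonneg (L : List ℕ) (k : ℕ) : 0 ≤ PowerSeries.coeff k (geom L : PowerSeries ℤ) := by
  induction L generalizing k with
  | nil =>
    simp only [geom, List.map_nil, List.prod_nil, Polynomial.coe_one, PowerSeries.coeff_one]
    split_ifs <;> norm_num
  | cons a L ih =>
    have h : geom (a :: L) = (∑ j ∈ Finset.range a, (X : ℤ[X]) ^ j) * geom L := by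
      rw [geom, List.map_cons, List.prod_cons, geom]
    rw [h, Polynomial.coe_mul]
    apply nonneg_mul _ _ _ ih
    intro k
    rw [Polynomial.coeff_coe, Polynomial.finsetSum_coeff]
    refine Finset.sum_nonneg fun j _ => ?_
    rw [Polynomial.coeff_X_pow]
    split_ifs <;> norm_num

theorem geom_coeff_zero (L : List ℕ) (hL : ∀ b ∈ L, 0 < b) : (geom L).coeff 0 = 1 := by
  rw [Polynomial.coeff_zero_eq_eval_zero]
  induction L with
  | nil => simp [geom]
  | cons a L ih =>
    have h : geom (a :: L) = (∑ j ∈ Finset.range a, (X : ℤ[X]) ^ j) * geom L := by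
      rw [geom, List.map_cons, List.prod_cons, geom]
    rw [h, eval_mul, ih (fun b hb => hL b (List.mem_cons_of_mem _ hb)), mul_one, eval_finsetSum]
    have ha := hL a (by simp)
    obtain ⟨c, rfl⟩ : ∃ c, a = c + 1 := ⟨a - 1, by omega⟩
    rw [Finset.sum_range_succ']
    simp

theorem prod_geom (L : List ℕ) : (L.map (fun b => (1 : ℤ[X]) - X ^ b)).prod =
    (1 - X) ^ L.length * geom L := by
  induction L with
  | nil => simp [geom]
  | cons a L ih =>
    have h : geom (a :: L) = (∑ j ∈ Finset.range a, (X : ℤ[X]) ^ j) * geom L := by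
      rw [geom, List.map_cons, List.prod_cons, geom]
    rw [List.map_cons, List.prod_cons, ih, h, List.length_cons]
    have h2 : (1 : ℤ[X]) - X ^ a = (1 - X) * ∑ j ∈ Finset.range a, (X : ℤ[X]) ^ j :=
      (mul_neg_geom_sum X a).symm
    rw [h2]
    ring

theorem length_eq (i n : ℕ) (hi : i = 4 ∨ i = 5) : (numL i n).length = (denL i n).length := by
  rcases hi with rfl | rfl <;> simp [numL, denL] <;> omega

theorem neg_coeff (i n : ℕ) (hi : i = 4 ∨ i = 5) (h9 : n % 9 = 1) :
    ∃ P : PowerSeries ℤ, (num i n : PowerSeries ℤ) = P * (den i n : PowerSeries ℤ) ∧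
      ∃ k, PowerSeries.coeff k P < 0 := by
  have hden0 : PowerSeries.constantCoeff (den i n : PowerSeries ℤ) = 1 := by
    rw [← PowerSeries.coeff_zero_eq_constantCoeff_apply, Polynomial.coeff_coe, ← denL_prod,
      prod_geom, Polynomial.mul_coeff_zero, geom_coeff_zero _ (pos_denL i n),
      Polynomial.coeff_zero_eq_eval_zero]
    simp
  refine ⟨(num i n : PowerSeries ℤ) * PowerSeries.invOfUnit (den i n : PowerSeries ℤ) 1, ?_, ?_⟩
  · rw [mul_assoc, mul_comm (PowerSeries.invOfUnit _ _),
      PowerSeries.mul_invOfUnit _ _ (by rw [hden0]; rfl), mul_one]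
  · set P := (num i n : PowerSeries ℤ) * PowerSeries.invOfUnit (den i n : PowerSeries ℤ) 1 with hPd
    have hP : (num i n : PowerSeries ℤ) = P * (den i n : PowerSeries ℤ) := by
      rw [hPd, mul_assoc, mul_comm (PowerSeries.invOfUnit _ _),
        PowerSeries.mul_invOfUnit _ _ (by rw [hden0]; rfl), mul_one]
    by_contra hneg
    push Not at hneg
    -- cancel the powers of `1 - X`
    have h1 : (geom (numL i n) : PowerSeries ℤ) = P * (geom (denL i n) : PowerSeries ℤ) := by
      have h2 : (((1 - X) ^ (numL i n).length : ℤ[X]) : PowerSeries ℤ) ≠ 0 := by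
        rw [Ne, Polynomial.coe_eq_zero_iff]
        apply pow_ne_zero
        intro h
        have := congrArg (fun p => p.coeff 0) h
        simp at this
      apply mul_left_cancel₀ h2
      rw [← Polynomial.coe_mul, ← prod_geom, numL_prod, hP, ← denL_prod, prod_geom,
        ← length_eq i n hi, Polynomial.coe_mul]
      ring
    -- `P` is a polynomial
    have h3 : ∀ m, (geom (numL i n)).natDegree < m → PowerSeries.coeff m P = 0 := by
      intro m hm
      have h4 : PowerSeries.coeff m (geom (numL i n) : PowerSeries ℤ) = 0 := by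
        rw [Polynomial.coeff_coe]
        exact Polynomial.coeff_eq_zero_of_natDegree_lt hm
      rw [h1, PowerSeries.coeff_mul] at h4
      have h5 := (Finset.sum_eq_zero_iff_of_nonneg
        (fun x _ => mul_nonneg (hneg _) (geom_nonneg _ _))).1 h4 (m, 0) (by simp)
      rw [Polynomial.coeff_coe, geom_coeff_zero _ (pos_denL i n), mul_one] at h5
      exact h5
    have h6 : P = (PowerSeries.trunc ((geom (numL i n)).natDegree + 1) P : ℤ[X]) := by
      ext m
      rw [Polynomial.coeff_coe, PowerSeries.coeff_trunc]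
      split_ifs with h
      · rfl
      · exact h3 m (by omega)
    apply not_poly i n hi h9
    refine ⟨(PowerSeries.trunc ((geom (numL i n)).natDegree + 1) P).map (Int.castRingHom ℂ), ?_⟩
    rw [← Polynomial.map_mul]
    congr 1
    apply Polynomial.coe_injective
    rw [Polynomial.coe_mul, ← h6]
    exact hP

end Pool.Agent.Q196.QF6
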