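import Pool.Agent.Q196.QF6.Defs

set_option autoImplicit false

/-!
# Positivity for large `n`
-/

namespace Pool.Agent.Q196.QF6

open Polynomial

theorem pos1 (n : ℕ) (hn : 0 < n) : NonnegPoly 1 n := by
  classical
  obtain ⟨P, hP, hPe⟩ := master n 0 hn (S1 n) ∅
    (by intro a ha; rw [mem_S1] at ha; omega)
    (by intro a ha; rw [Finset.mem_Ioc] at ha; rw [mem_S1]; omega)
    (hL1 n hn) (by simp)
    (by
      rw [S1, Finset.card_insert_of_notMem (by rw [Finset.mem_Ioc]; omega), Nat.card_Ioc]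
      simp; omega)
  refine ⟨P, hP, ?_⟩
  have hS : ∏ a ∈ S1 n, ((1 : ℤ[X]) - X ^ a) =
      (1 - X ^ (2 * n + 1)) * ∏ a ∈ Finset.Ioc 1 (2 * n), ((1 : ℤ[X]) - X ^ a) := by
    rw [S1, Finset.prod_insert (by rw [Finset.mem_Ioc]; omega)]
  have h1 : qfac 1 = 1 - X := by simp [qfac]
  have hR := qfac_mul 1 (2 * n) (by omega)
  have hT := qfac_mul n (2 * n) (by omega)
  have hW := qfac_mul (3 * n) (6 * n) (by omega)
  rw [h1] at hR
  rw [hS, Finset.prod_empty, one_mul, pow_zero, one_mul] at hPe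
  have h2 : qfac (2 * n) ^ 2 = ((1 - X) * ∏ b ∈ Finset.Ioc 1 (2 * n), (1 - X ^ b)) *
      (qfac n * ∏ b ∈ Finset.Ioc n (2 * n), (1 - X ^ b)) := by
    rw [← hR, ← hT, sq]
  show (1 - X) * (qfac (6 * n) * qfac n) =
    P * ((1 - X ^ (2 * n + 1)) * (qfac (3 * n) * qfac (2 * n) ^ 2))
  rw [h2, hW]
  linear_combination ((1 - X) * qfac (3 * n) * qfac n) * hPe

theorem prod_S2 (n : ℕ) (hn : 3 ≤ n) : (1 - X ^ 3) * ∏ a ∈ S2 n, ((1 : ℤ[X]) - X ^ a) =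
      (1 - X ^ (2 * n + 3)) * ∏ a ∈ Finset.Ioc 1 (2 * n), ((1 : ℤ[X]) - X ^ a) := by
  rw [S2, Finset.prod_insert (by rw [Finset.mem_erase, Finset.mem_Ioc]; omega),
    ← Finset.mul_prod_erase (Finset.Ioc 1 (2 * n)) (fun a => (1 : ℤ[X]) - X ^ a)
      (show 3 ∈ _ by rw [Finset.mem_Ioc]; omega)]
  ring

theorem prod_S4 (n : ℕ) (hn : 7 ≤ n) :
    (1 - X ^ 3) * (1 - X ^ 5) * (1 - X ^ 7) * ∏ a ∈ S4 n, ((1 : ℤ[X]) - X ^ a) =
      (1 - X ^ (2 * n + 3)) * (1 - X ^ (2 * n + 5)) * (1 - X ^ (2 * n + 7)) *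
        ∏ a ∈ Finset.Ioc 1 (2 * n), ((1 : ℤ[X]) - X ^ a) := by
  rw [S4, Finset.prod_insert (by simp), Finset.prod_insert (by simp),
    Finset.prod_insert (by simp),
    ← Finset.mul_prod_erase (Finset.Ioc 1 (2 * n)) (fun a => (1 : ℤ[X]) - X ^ a)
      (show 3 ∈ _ by rw [Finset.mem_Ioc]; omega),
    ← Finset.mul_prod_erase ((Finset.Ioc 1 (2 * n)).erase 3) (fun a => (1 : ℤ[X]) - X ^ a)
      (show 5 ∈ _ by rw [Finset.mem_erase, Finset.mem_Ioc]; omega),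
    ← Finset.mul_prod_erase (((Finset.Ioc 1 (2 * n)).erase 3).erase 5)
      (fun a => (1 : ℤ[X]) - X ^ a)
      (show 7 ∈ _ by rw [Finset.mem_erase, Finset.mem_erase, Finset.mem_Ioc]; omega)]
  ring

theorem card_S2 (n : ℕ) (hn : 3 ≤ n) : (S2 n).card = 2 * n - 1 := by
  rw [S2, Finset.card_insert_of_notMem (by rw [Finset.mem_erase, Finset.mem_Ioc]; omega),
    Finset.card_erase_of_mem (by rw [Finset.mem_Ioc]; omega), Nat.card_Ioc]
  omega

theorem card_S3 (n : ℕ) (hn : 3 ≤ n) : (S3 n).card = 2 * n := by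
  rw [S3, Finset.card_insert_of_notMem (by rw [mem_S2]; omega), card_S2 n hn]
  omega

theorem card_S4 (n : ℕ) (hn : 7 ≤ n) : (S4 n).card = 2 * n - 1 := by
  rw [S4, Finset.card_insert_of_notMem (by simp), Finset.card_insert_of_notMem (by simp),
    Finset.card_insert_of_notMem (by simp),
    Finset.card_erase_of_mem (by rw [Finset.mem_erase, Finset.mem_erase, Finset.mem_Ioc]; omega),
    Finset.card_erase_of_mem (by rw [Finset.mem_erase, Finset.mem_Ioc]; omega),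
    Finset.card_erase_of_mem (by rw [Finset.mem_Ioc]; omega), Nat.card_Ioc]
  omega

theorem card_S5 (n : ℕ) (hn : 7 ≤ n) : (S5 n).card = 2 * n := by
  rw [S5, Finset.card_insert_of_notMem (by rw [mem_S4]; omega), card_S4 n hn]
  omega

theorem cancel {a b c : ℤ[X]} (e : ℕ) (he : 0 < e) (h : (1 - X ^ e) * a = (1 - X ^ e) * b) :
    a = b := by
  have h0 : ((1 : ℤ[X]) - X ^ e) ≠ 0 := by
    intro h1
    have h2 := congrArg (fun p => p.coeff 0) h1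
    simp [he.ne] at h2
  exact mul_left_cancel₀ h0 h

theorem pos2 (n : ℕ) (hn : 3 ≤ n) : NonnegPoly 2 n := by
  classical
  obtain ⟨P, hP, hPe⟩ := master n 1 (by omega) (S2 n) ∅
    (by intro a ha; rw [mem_S2] at ha; omega)
    (by intro a ha; rw [Finset.mem_Ioc] at ha; rw [mem_S2]; omega)
    (hL2 n hn) (by simp)
    (by rw [card_S2 n hn]; simp; omega)
  refine ⟨P, hP, ?_⟩
  have hS := prod_S2 n hn
  have h1 : qfac 1 = 1 - X := by simp [qfac]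
  have hR := qfac_mul 1 (2 * n) (by omega)
  have hT := qfac_mul n (2 * n) (by omega)
  have hW := qfac_mul (3 * n) (6 * n) (by omega)
  rw [h1] at hR
  rw [Finset.prod_empty, one_mul, pow_one] at hPe
  have h2 : qfac (2 * n) ^ 2 = ((1 - X) * ∏ b ∈ Finset.Ioc 1 (2 * n), (1 - X ^ b)) *
      (qfac n * ∏ b ∈ Finset.Ioc n (2 * n), (1 - X ^ b)) := by
    rw [← hR, ← hT, sq]
  show (1 - X ^ 3) * (qfac (6 * n) * qfac n) =
    P * ((1 - X ^ (2 * n + 3)) * (qfac (3 * n) * qfac (2 * n) ^ 2))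
  rw [h2, hW]
  linear_combination ((1 - X ^ 3) * qfac (3 * n) * qfac n) * hPe +
    (P * qfac (3 * n) * (1 - X) * qfac n * ∏ b ∈ Finset.Ioc n (2 * n), (1 - X ^ b)) * hS

theorem pos3 (n : ℕ) (hn : 3 ≤ n) : NonnegPoly 3 n := by
  classical
  obtain ⟨P, hP, hPe⟩ := master n 0 (by omega) (S3 n) ∅
    (by intro a ha; rw [mem_S3] at ha; omega)
    (by intro a ha; rw [Finset.mem_Ioc] at ha; rw [mem_S3]; omega)
    (hL3 n hn) (by simp)
    (by rw [card_S3 n hn]; simp; omega)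
  refine ⟨P, hP, ?_⟩
  have hS := prod_S2 n hn
  have hS3 : ∏ a ∈ S3 n, ((1 : ℤ[X]) - X ^ a) =
      (1 - X ^ (2 * n + 1)) * ∏ a ∈ S2 n, ((1 : ℤ[X]) - X ^ a) := by
    rw [S3, Finset.prod_insert (by rw [mem_S2]; omega)]
  have h1 : qfac 1 = 1 - X := by simp [qfac]
  have hR := qfac_mul 1 (2 * n) (by omega)
  have hT := qfac_mul n (2 * n) (by omega)
  have hW := qfac_mul (3 * n) (6 * n) (by omega)
  rw [h1] at hR
  rw [Finset.prod_empty, one_mul, pow_zero, one_mul, hS3] at hPe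
  have h2 : qfac (2 * n) ^ 2 = ((1 - X) * ∏ b ∈ Finset.Ioc 1 (2 * n), (1 - X ^ b)) *
      (qfac n * ∏ b ∈ Finset.Ioc n (2 * n), (1 - X ^ b)) := by
    rw [← hR, ← hT, sq]
  show ((1 - X) * (1 - X ^ 3)) * (qfac (6 * n) * qfac n) =
    P * (((1 - X ^ (2 * n + 1)) * (1 - X ^ (2 * n + 3))) * (qfac (3 * n) * qfac (2 * n) ^ 2))
  rw [h2, hW]
  linear_combination ((1 - X) * (1 - X ^ 3) * qfac (3 * n) * qfac n) * hPe +
    (P * qfac (3 * n) * (1 - X) * (1 - X ^ (2 * n + 1)) * qfac n *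
      ∏ b ∈ Finset.Ioc n (2 * n), (1 - X ^ b)) * hS

theorem pos4 (n : ℕ) (hn : 7 ≤ n) (h9 : n % 9 ≠ 1) : NonnegPoly 4 n := by
  classical
  obtain ⟨P, hP, hPe⟩ := master n 1 (by omega) (S4 n) ∅
    (by intro a ha; rw [mem_S4] at ha; omega)
    (by intro a ha; rw [Finset.mem_Ioc] at ha; rw [mem_S4]; omega)
    (hL4 n hn h9) (by simp)
    (by rw [card_S4 n hn]; simp; omega)
  refine ⟨P, hP, ?_⟩
  have hS := prod_S4 n hn
  have h1 : qfac 1 = 1 - X := by simp [qfac]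
  have hR := qfac_mul 1 (2 * n) (by omega)
  have hT := qfac_mul n (2 * n) (by omega)
  have hW := qfac_mul (3 * n) (6 * n) (by omega)
  rw [h1] at hR
  rw [Finset.prod_empty, one_mul, pow_one] at hPe
  have h2 : qfac (2 * n) ^ 2 = ((1 - X) * ∏ b ∈ Finset.Ioc 1 (2 * n), (1 - X ^ b)) *
      (qfac n * ∏ b ∈ Finset.Ioc n (2 * n), (1 - X ^ b)) := by
    rw [← hR, ← hT, sq]
  show ((1 - X ^ 3) * (1 - X ^ 5) * (1 - X ^ 7)) * (qfac (6 * n) * qfac n) =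
    P * (((1 - X ^ (2 * n + 3)) * (1 - X ^ (2 * n + 5)) * (1 - X ^ (2 * n + 7))) *
      (qfac (3 * n) * qfac (2 * n) ^ 2))
  rw [h2, hW]
  linear_combination ((1 - X ^ 3) * (1 - X ^ 5) * (1 - X ^ 7) * qfac (3 * n) * qfac n) * hPe +
    (P * qfac (3 * n) * (1 - X) * qfac n *
      ∏ b ∈ Finset.Ioc n (2 * n), (1 - X ^ b)) * hS

theorem pos5 (n : ℕ) (hn : 7 ≤ n) (h9 : n % 9 ≠ 1) : NonnegPoly 5 n := by
  classical
  obtain ⟨P, hP, hPe⟩ := master n 1 (by omega) (S5 n) {3}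
    (by intro a ha; rw [mem_S5] at ha; omega)
    (by intro a ha; rw [Finset.mem_Ioc] at ha; rw [mem_S5]; omega)
    (hL5 n hn h9) (by simp; omega)
    (by rw [card_S5 n hn]; simp; omega)
  refine ⟨P, hP, ?_⟩
  have hS := prod_S4 n hn
  have hS5 : ∏ a ∈ S5 n, ((1 : ℤ[X]) - X ^ a) =
      (1 - X ^ (2 * n + 1)) * ∏ a ∈ S4 n, ((1 : ℤ[X]) - X ^ a) := by
    rw [S5, Finset.prod_insert (by rw [mem_S4]; omega)]
  have h1 : qfac 1 = 1 - X := by simp [qfac]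
  have hR := qfac_mul 1 (2 * n) (by omega)
  have hT := qfac_mul n (2 * n) (by omega)
  have hW := qfac_mul (3 * n) (6 * n) (by omega)
  rw [h1] at hR
  rw [Finset.prod_singleton, pow_one, hS5] at hPe
  have h2 : qfac (2 * n) ^ 2 = ((1 - X) * ∏ b ∈ Finset.Ioc 1 (2 * n), (1 - X ^ b)) *
      (qfac n * ∏ b ∈ Finset.Ioc n (2 * n), (1 - X ^ b)) := by
    rw [← hR, ← hT, sq]
  show ((1 - X ^ 3) ^ 2 * (1 - X ^ 5) * (1 - X ^ 7)) * (qfac (6 * n) * qfac n) =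
    P * (((1 - X ^ (2 * n + 1)) * (1 - X ^ (2 * n + 3)) * (1 - X ^ (2 * n + 5)) *
      (1 - X ^ (2 * n + 7))) * (qfac (3 * n) * qfac (2 * n) ^ 2))
  rw [h2, hW]
  linear_combination ((1 - X ^ 3) * (1 - X ^ 5) * (1 - X ^ 7) * qfac (3 * n) * qfac n) * hPe +
    (P * qfac (3 * n) * (1 - X) * (1 - X ^ (2 * n + 1)) * qfac n *
      ∏ b ∈ Finset.Ioc n (2 * n), (1 - X ^ b)) * hS

end Pool.Agent.Q196.QF6
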